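import Pool.Agent.U247.CV.Upper
import Pool.Agent.U247.CV.Final

/-!
# Covering subgroups: a bound for solvable normal subgroups, and lower bounds

1. If `H` is a normal subgroup of index `n` of the finite group `A`, the conjugates of `U ≤ H` under
   `A` cover `H`, and the `d`-th derived subgroup of `H` is trivial, then
   `|H : U| ≤ n ^ (2 ^ d - 1)`.
2. The exponent is of the correct order: for arbitrarily large `d` there are such groups with
   `|H : U| ≥ n ^ (2 ^ d / 14)`.
3. For every prime `p` there is an example in which `H` is a `p`-group, `|H : U| = p ^ p`, and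
   `|A : H| = q (q - 1)` for a prime `q` between `p ^ 3 + 2` and `2 p ^ 3 + 2`.
4. So every function `f` with the property of the question satisfies
   `f(n) ≥ n ^ (n ^ (1/6) / 10)` for infinitely many `n`.
5. For every finite group `R` and every prime `q` greater than the number of conjugacy classes of `R`
   there are such groups with `|A : H| = q (q - 1)` and `|H : U| = |R|`.

Idea for 1: let `V` be the last nontrivial term of the derived series of `H`, and `W = U ∩ V`. Since
`V` is abelian, `W` is normalized by `U V`, so that `W` has at most `|A : U V|` conjugates. They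
cover `V`. So `|V : W|` is at most `|A : U V| = n |H : U V|`, and
`|H : U| = |H : U V| |V : W|` is at most `n |H : U V| ^ 2`; induction for `A / V`.

Idea for 5: the affine group of the field with `q` elements acts on the coordinates of `R ^ q`. Let
`H = R ^ q`, let `U` be the subgroup of the elements whose coordinates at `0` and `1` are equal. Two
coordinates of an element of `H` are conjugate in `R`.

For 2, 3 and 4 the group `R` is the group of the automorphisms of `F_p[x] / (x ^ (p + 2))` which are
trivial modulo `x ^ 2` (a quotient of the Nottingham group). It has order `p ^ p`, derived length at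
most `log_2 (p + 1)`, rounded up, and at most `p ^ 3 + 1` conjugacy classes, since automorphisms of
different depths do not commute.
-/

set_option autoImplicit false

namespace Pool.Agent.Results.MP_169bcc_al.SolvableBoundAndGrowth

open Pool.Agent.U247.CV

theorem result :
    (∀ (d : ℕ) (A : Type) [Group A] [Finite A] (H U : Subgroup A), H.Normal → U ≤ H →
      (∀ h ∈ H, ∃ a : A, a * h * a⁻¹ ∈ U) → derivedSeries H d = ⊥ →
      (U.subgroupOf H).index ≤ H.index ^ (2 ^ d - 1)) ∧
    (∀ D : ℕ, ∃ d, D ≤ d ∧ ∃ (A : Type) (_ : Group A) (_ : Finite A) (H U : Subgroup A),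
      H.Normal ∧ U ≤ H ∧ (∀ h ∈ H, ∃ a : A, a * h * a⁻¹ ∈ U) ∧ derivedSeries H d = ⊥ ∧
        2 ≤ H.index ∧ H.index ^ (2 ^ d) ≤ (U.subgroupOf H).index ^ 14) ∧
    (∀ p : ℕ, p.Prime → ∃ q : ℕ, q.Prime ∧ p ^ 3 + 1 < q ∧ q ≤ 2 * p ^ 3 + 2 ∧
      ∃ (A : Type) (_ : Group A) (_ : Finite A) (H U : Subgroup A), H.Normal ∧ U ≤ H ∧
        IsPGroup p H ∧ (∀ h ∈ H, ∃ a : A, a * h * a⁻¹ ∈ U) ∧ H.index = q * (q - 1) ∧
        (U.subgroupOf H).index = p ^ p) ∧
    (∀ f : ℕ → ℕ,
      (∀ (A : Type) [Group A] [Finite A] (H U : Subgroup A), H.Normal → U < H → H < ⊤ →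
        (∀ h ∈ H, ∃ a : A, a * h * a⁻¹ ∈ U) → (U.subgroupOf H).index ≤ f H.index) →
      ∀ N : ℕ, ∃ n, N ≤ n ∧ (n : ℝ) ^ ((n : ℝ) ^ (1 / 6 : ℝ) / 10) ≤ f n) ∧
    ∀ (R : Type) [Group R] [Finite R] (q : ℕ), q.Prime → Nat.card (ConjClasses R) < q →
      ∃ (A : Type) (_ : Group A) (_ : Finite A) (H U : Subgroup A), H.Normal ∧ U ≤ H ∧
        (∀ h ∈ H, ∃ a : A, a * h * a⁻¹ ∈ U) ∧ H.index = q * (q - 1) ∧
        (U.subgroupOf H).index = Nat.card R :=
  ⟨fun d => upper d, fun D => sharp D, fun p hp => by
    obtain ⟨q, h1, h2, h3, A, h4, h5, H, U, h6, h7, h8, -, h9, h10, h11⟩ := lower_p p hp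
    exact ⟨q, h1, h2, h3, A, h4, h5, H, U, h6, h7, h8, h9, h10, h11⟩,
    fun f hf N => growth' f hf N, fun R _ _ q hq h => by
    have _ : Fact q.Prime := ⟨hq⟩
    exact lower R q h⟩

end Pool.Agent.Results.MP_169bcc_al.SolvableBoundAndGrowth
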